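import Pool.Agent.helper37.QX.SpecG

set_option autoImplicit false

open scoped MatrixGroups ContDiff Topology
open MeasureTheory ProbabilityTheory Filter Set Polynomial
open Pool.Agent.QU Pool.Agent.RP

namespace Pool.Agent.QX

private theorem ULW_pos {N : ℕ} (c : ℝ) (x : GI N → ℝ) (i : Fin 4) : EX c x i = ES c x (i, true) := by
  unfold EX ES zs
  rw [if_pos rfl]

private theorem ULW_neg {N : ℕ} (c : ℝ) (x : GI N → ℝ) (i : Fin 4) :
    star (EX c x i) = ES c x (i, false) := by
  unfold EX ES zs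
  rw [if_neg Bool.false_ne_true, Matrix.star_eq_conjTranspose, ← Matrix.exp_conjTranspose,
    ← Matrix.star_eq_conjTranspose, star_smul, XM_herm]
  congr 2
  simp

private theorem ULW_letter {N : ℕ} (c : ℝ) (x : GI N → ℝ) (s : Fin 2 × Bool) :
    ((cond s.2 ((![EU c x 0 * EU c x 1, EU c x 2 * EU c x 3] : Fin 2 → Matrix.unitaryGroup (Fin N) ℂ) s.1)
      ((![EU c x 0 * EU c x 1, EU c x 2 * EU c x 3] : Fin 2 → Matrix.unitaryGroup (Fin N) ℂ) s.1)⁻¹ :
      Matrix.unitaryGroup (Fin N) ℂ) : Matrix (Fin N) (Fin N) ℂ) = EL c x (lq s) := by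
  have hE : ∀ i : Fin 4, ((EU c x i : Matrix.unitaryGroup (Fin N) ℂ) : Matrix (Fin N) (Fin N) ℂ) = EX c x i :=
    fun i => rfl
  have h2 : ∀ s t : Fin 4 × Bool, EL c x [s, t] = ES c x s * ES c x t := by
    intro s t
    unfold EL
    rw [List.map_cons, List.map_cons, List.map_nil, List.prod_cons, List.prod_cons, List.prod_nil, mul_one]
  obtain ⟨a, b⟩ := s
  fin_cases a <;> cases b
  · show (((EU c x 0 * EU c x 1)⁻¹ : Matrix.unitaryGroup (Fin N) ℂ) : Matrix (Fin N) (Fin N) ℂ) =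
      EL c x [(1, false), (0, false)]
    rw [h2, Matrix.UnitaryGroup.inv_val, Matrix.UnitaryGroup.mul_val, star_mul, hE, hE, ULW_neg, ULW_neg]
  · show (((EU c x 0 * EU c x 1) : Matrix.unitaryGroup (Fin N) ℂ) : Matrix (Fin N) (Fin N) ℂ) =
      EL c x [(0, true), (1, true)]
    rw [h2, Matrix.UnitaryGroup.mul_val, hE, hE, ULW_pos, ULW_pos]
  · show (((EU c x 2 * EU c x 3)⁻¹ : Matrix.unitaryGroup (Fin N) ℂ) : Matrix (Fin N) (Fin N) ℂ) =
      EL c x [(3, false), (2, false)]
    rw [h2, Matrix.UnitaryGroup.inv_val, Matrix.UnitaryGroup.mul_val, star_mul, hE, hE, ULW_neg, ULW_neg]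
  · show (((EU c x 2 * EU c x 3) : Matrix.unitaryGroup (Fin N) ℂ) : Matrix (Fin N) (Fin N) ℂ) =
      EL c x [(2, true), (3, true)]
    rw [h2, Matrix.UnitaryGroup.mul_val, hE, hE, ULW_pos, ULW_pos]

private theorem ULW_app {N : ℕ} (c : ℝ) (x : GI N → ℝ) (L L' : List (Fin 4 × Bool)) :
    EL c x (L ++ L') = EL c x L * EL c x L' := by
  unfold EL
  rw [List.map_append, List.prod_append]

theorem ULW : ULW_stmt := by
  intro N c x w
  have key : ∀ L : List (Fin 2 × Bool),
      ((UG c x (FreeGroup.mk L) : Matrix.unitaryGroup (Fin N) ℂ) : Matrix (Fin N) (Fin N) ℂ) =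
        EL c x (L.flatMap lq) := by
    intro L
    unfold UG
    rw [FreeGroup.lift_mk]
    induction L with
    | nil =>
      rw [List.map_nil, List.prod_nil, List.flatMap_nil, Matrix.UnitaryGroup.one_val]
      unfold EL
      rw [List.map_nil, List.prod_nil]
    | cons s L ih =>
      rw [List.map_cons, List.prod_cons, List.flatMap_cons, Matrix.UnitaryGroup.mul_val, ULW_app, ih,
        ULW_letter]
  have h := key w.toWord
  rw [FreeGroup.mk_toWord] at h
  exact h

end Pool.Agent.QX
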